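import Mathlib

namespace Pool.Agent.H.MP_b101b2_co

open Matrix Finset

section GM
variable {V : Type} [Fintype V] [DecidableEq V]

/-- switching matrix -/
noncomputable def Q (C : V → Prop) [DecidablePred C] (s t : V → V) : Matrix V V ℝ :=
  fun x y => if C x then
    ((if s x = y then 1 else 0) + (if t x = y then 1 else 0) + (if s (t x) = y then 1 else 0)
      - (if x = y then 1 else 0)) / 2
    else (if x = y then 1 else 0)

theorem Qmul (C : V → Prop) [DecidablePred C] (s t : V → V) (M : Matrix V V ℝ) (x y : V) :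
    (Q C s t * M) x y =
      if C x then (M (s x) y + M (t x) y + M (s (t x)) y - M x y) / 2 else M x y := by
  rw [Matrix.mul_apply]
  unfold Q
  split_ifs with h
  · simp only [div_mul_eq_mul_div, add_mul, sub_mul, ite_mul, one_mul, zero_mul]
    rw [← Finset.sum_div]
    simp only [Finset.sum_sub_distrib, Finset.sum_add_distrib, Finset.sum_ite_eq,
      Finset.mem_univ, if_true]
  · simp

theorem conj (C : V → Prop) [DecidablePred C] (s t : V → V)
    (hs : ∀ x, s (s x) = x) (ht : ∀ x, t (t x) = x) (hst : ∀ x, t (s x) = s (t x))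
    (A B : Matrix V V ℝ) (hA : ∀ x y, A x y = A y x) (hB : ∀ x y, B x y = B y x)
    (As : ∀ x y, A (s x) y = A x (s y)) (At : ∀ x y, A (t x) y = A x (t y))
    (h1 : ∀ x y, C x → C y → B x y = A x y) (h2 : ∀ x y, ¬ C x → ¬ C y → B x y = A x y)
    (h3 : ∀ x y, C x → ¬ C y →
      B x y = (A (s x) y + A (t x) y + A (s (t x)) y - A x y) / 2) :
    Q C s t * (Q C s t * A)ᵀ = B := by
  ext x y
  rw [Qmul]
  simp only [Matrix.transpose_apply, Qmul]
  by_cases hx : C x <;> by_cases hy : C y
  · simp only [hx, hy, if_true]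
    rw [h1 x y hx hy, hA x y]
    simp only [As, At, hs, ht, hst]
    ring
  · simp only [hx, hy, if_true, if_false]
    rw [h3 x y hx hy, hA y, hA y, hA y, hA y]
  · simp only [hx, hy, if_true, if_false]
    rw [hB, h3 y x hy hx]
  · simp only [hx, hy, if_false]
    rw [h2 x y hx hy, hA]

theorem gm (C : V → Prop) [DecidablePred C] (s t : V → V)
    (hs : ∀ x, s (s x) = x) (ht : ∀ x, t (t x) = x) (hst : ∀ x, t (s x) = s (t x))
    (Cs : ∀ x, C x → C (s x)) (Ct : ∀ x, C x → C (t x))
    (A B : Matrix V V ℝ) (hA : ∀ x y, A x y = A y x) (hB : ∀ x y, B x y = B y x)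
    (As : ∀ x y, A (s x) y = A x (s y)) (At : ∀ x y, A (t x) y = A x (t y))
    (h1 : ∀ x y, C x → C y → B x y = A x y) (h2 : ∀ x y, ¬ C x → ¬ C y → B x y = A x y)
    (h3 : ∀ x y, C x → ¬ C y →
      B x y = (A (s x) y + A (t x) y + A (s (t x)) y - A x y) / 2) :
    B.charpoly = A.charpoly := by
  have e1 := conj C s t hs ht hst A B hA hB As At h1 h2 h3
  have sym : ∀ x y : V, (1 : Matrix V V ℝ) x y = (1 : Matrix V V ℝ) y x := by
    intro x y
    simp only [Matrix.one_apply, eq_comm]
  have inv : ∀ (u : V → V), (∀ x, u (u x) = x) →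
      ∀ x y : V, (1 : Matrix V V ℝ) (u x) y = (1 : Matrix V V ℝ) x (u y) := by
    intro u hu x y
    simp only [Matrix.one_apply]
    congr 1
    apply propext
    constructor
    · rintro rfl; rw [hu]
    · rintro rfl; rw [hu]
  have e2 := conj C s t hs ht hst 1 1 sym sym (inv s hs) (inv t ht) (fun _ _ _ _ => rfl)
    (fun _ _ _ _ => rfl) (by
      intro x y hx hy
      have n0 : x ≠ y := fun h => hy (h ▸ hx)
      have n1 : s x ≠ y := fun h => hy (h ▸ Cs x hx)
      have n2 : t x ≠ y := fun h => hy (h ▸ Ct x hx)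
      have n3 : s (t x) ≠ y := fun h => hy (h ▸ Cs _ (Ct x hx))
      simp [Matrix.one_apply, n0, n1, n2, n3])
  rw [Matrix.mul_one] at e2
  have e3 : (Q C s t)ᵀ * Q C s t = 1 := mul_eq_one_comm.mp e2
  have hAt : Aᵀ = A := by ext x y; exact hA y x
  rw [← e1, Matrix.transpose_mul, hAt, Matrix.charpoly_mul_comm, Matrix.mul_assoc, e3,
    Matrix.mul_one]

end GM

end Pool.Agent.H.MP_b101b2_co
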