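import Mathlib

namespace Pool.Agent.H.MP_b101b2_co

open Finset

abbrev V (α : Type) (k : ℕ) : Type := {A : Finset α // A.card = k}

section
variable {α : Type} [DecidableEq α]

def chi (x : Finset α) (z : α) : ZMod 2 := if z ∈ x then 1 else 0

def P (w : α → ZMod 2) (y : Finset α) : ZMod 2 := ∑ z ∈ y, w z

theorem P_chi (x y : Finset α) : P (chi x) y = ((x ∩ y).card : ZMod 2) := by
  unfold P chi
  rw [Finset.sum_boole, Finset.filter_mem_eq_inter, Finset.inter_comm]

theorem P_four (w1 w2 w3 w4 : α → ZMod 2) (y : Finset α) :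
    P (fun z => w1 z + w2 z + w3 z + w4 z) y = P w1 y + P w2 y + P w3 y + P w4 y := by
  simp [P, Finset.sum_add_distrib]

theorem zm (p : ZMod 2) : p = 0 ∨ p = 1 := by revert p; decide

variable [Fintype α] {k : ℕ}

def tau (h : Fintype.card α = 2 * k) (x : V α k) : V α k :=
  ⟨x.1ᶜ, by rw [Finset.card_compl, h, x.2]; omega⟩

theorem mem_tau (h : Fintype.card α = 2 * k) (x : V α k) (z : α) :
    z ∈ (tau h x).1 ↔ z ∉ x.1 := by simp [tau]

theorem adj_iff (h : Fintype.card α = 2 * k) (x y : V α k) :
    (x ≠ y ∧ 2 ≤ (x.1 ∩ y.1).card ∧ (x.1 ∩ y.1).card ≤ k - 1 ∧ Even (x.1 ∩ y.1).card) ↔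
      (P (chi x.1) y.1 = 0 ∧ y ≠ x ∧ y ≠ tau h x) := by
  rw [P_chi, ZMod.natCast_eq_zero_iff_even]
  constructor
  · rintro ⟨h1, h2, h3, h4⟩
    refine ⟨h4, fun e => h1 e.symm, ?_⟩
    rintro rfl
    simp [tau] at h2
  · rintro ⟨h4, h1, h2⟩
    have h0 : (x.1 ∩ y.1).card ≠ 0 := by
      intro h0
      apply h2
      apply Subtype.ext
      apply Finset.eq_of_subset_of_card_le
      · intro z hz
        rw [mem_tau]
        intro hx
        rw [Finset.card_eq_zero] at h0
        have : z ∈ x.1 ∩ y.1 := Finset.mem_inter.mpr ⟨hx, hz⟩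
        rw [h0] at this
        simp at this
      · rw [y.2, (tau h x).2]
    have hk : (x.1 ∩ y.1).card ≠ k := by
      intro hk
      apply h1
      apply Subtype.ext
      have e1 : x.1 ∩ y.1 = x.1 :=
        Finset.eq_of_subset_of_card_le Finset.inter_subset_left (by rw [hk, x.2])
      have e2 : x.1 ∩ y.1 = y.1 :=
        Finset.eq_of_subset_of_card_le Finset.inter_subset_right (by rw [hk, y.2])
      rw [← e2, e1]
    have hle : (x.1 ∩ y.1).card ≤ k := by
      have := Finset.card_le_card (Finset.inter_subset_left (s₁ := x.1) (s₂ := y.1))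
      rwa [x.2] at this
    refine ⟨fun e => h1 e.symm, ?_, by omega, h4⟩
    obtain ⟨r, hr⟩ := h4
    omega

def O (k : ℕ) (w : α → ZMod 2) : Finset (V α k) := univ.filter (fun y => P w y.1 = 1)

theorem O_card (w : α → ZMod 2) :
    (O k w).card = ((powersetCard k (univ : Finset α)).filter (fun y => P w y = 1)).card := by
  apply Finset.card_bij (fun y _ => y.1)
  · intro y hy
    simp only [O, Finset.mem_filter, Finset.mem_univ, true_and] at hy
    simp [Finset.mem_powersetCard, y.2, hy]
  · intro y _ y' _ e
    exact Subtype.ext e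
  · intro y hy
    simp only [Finset.mem_filter, Finset.mem_powersetCard] at hy
    exact ⟨⟨y, hy.1.2⟩, by simp [O, hy.2], rfl⟩

theorem cb (n : ℕ) (hn : 4 ≤ n) : 25 ≤ (2 * n).choose n := by
  have h1 := Nat.choose_le_centralBinom 2 n
  have h2 : (8 : ℕ).choose 2 ≤ (2 * n).choose 2 := Nat.choose_le_choose 2 (by omega)
  have h3 : (8 : ℕ).choose 2 = 28 := by decide
  rw [Nat.centralBinom_eq_two_mul_choose] at h1
  omega

theorem O_big (h : Fintype.card α = 2 * k) (hk : 5 ≤ k) (w : α → ZMod 2) :
    (O k w).card = 0 ∨ 25 ≤ (O k w).card := by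
  rw [O_card]
  by_cases h1 : ∃ a, w a = 1
  · by_cases h0 : ∃ b, w b = 0
    · right
      obtain ⟨a, ha⟩ := h1
      obtain ⟨b, hb⟩ := h0
      have hab : a ≠ b := by
        rintro rfl
        rw [ha] at hb
        exact absurd hb (by decide)
      have hc : (powersetCard (k - 1) ((univ.erase a).erase b)).card = (2 * (k - 1)).choose (k - 1) := by
        rw [Finset.card_powersetCard, Finset.card_erase_of_mem (by simp [hab.symm]),
          Finset.card_erase_of_mem (by simp), Finset.card_univ, h]
        congr 1
        omega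
      refine le_trans (cb (k - 1) (by omega)) ?_
      rw [← hc]
      apply Finset.card_le_card_of_injOn
        (fun Z => if P w Z = 0 then insert a Z else insert b Z)
      · intro Z hZ
        simp only [Finset.mem_coe, Finset.mem_powersetCard] at hZ
        have na : a ∉ Z := fun m => by simpa using hZ.1 m
        have nb : b ∉ Z := fun m => by simpa using hZ.1 m
        simp only [Finset.mem_coe, Finset.mem_filter, Finset.mem_powersetCard]
        rcases zm (P w Z) with e | e
        · rw [if_pos e]
          refine ⟨⟨Finset.subset_univ _, by rw [Finset.card_insert_of_notMem na]; omega⟩, ?_⟩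
          unfold P at e ⊢
          rw [Finset.sum_insert na, e, ha, add_zero]
        · rw [if_neg (by rw [e]; decide)]
          refine ⟨⟨Finset.subset_univ _, by rw [Finset.card_insert_of_notMem nb]; omega⟩, ?_⟩
          unfold P at e ⊢
          rw [Finset.sum_insert nb, e, hb, zero_add]
      · intro Z hZ Z' hZ' e
        simp only [Finset.mem_coe, Finset.mem_powersetCard] at hZ hZ'
        ext z
        by_cases za : z = a
        · subst za
          have na : z ∉ Z := fun m => by simpa using hZ.1 m
          have na' : z ∉ Z' := fun m => by simpa using hZ'.1 m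
          simp [na, na']
        by_cases zb : z = b
        · subst zb
          have na : z ∉ Z := fun m => by simpa using hZ.1 m
          have na' : z ∉ Z' := fun m => by simpa using hZ'.1 m
          simp [na, na']
        have key : ∀ W : Finset α,
            (z ∈ (if P w W = 0 then insert a W else insert b W)) ↔ z ∈ W := by
          intro W
          split_ifs <;> simp [za, zb]
        rw [← key Z, ← key Z']
        simp only at e
        rw [e]
    · push Not at h0
      have hw : ∀ z, w z = 1 := fun z => (zm (w z)).resolve_left (h0 z)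
      rcases zm (k : ZMod 2) with e | e
      · left
        rw [Finset.card_eq_zero, Finset.filter_eq_empty_iff]
        intro y hy
        rw [Finset.mem_powersetCard] at hy
        simp [P, hw, hy.2, e]
      · right
        rw [Finset.filter_true_of_mem, Finset.card_powersetCard, Finset.card_univ, h]
        · exact cb k (by omega)
        · intro y hy
          rw [Finset.mem_powersetCard] at hy
          simp [P, hw, hy.2, e]
  · push Not at h1
    have hw : ∀ z, w z = 0 := fun z => (zm (w z)).resolve_right (h1 z)
    left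
    rw [Finset.card_eq_zero, Finset.filter_eq_empty_iff]
    intro y _
    simp [P, hw]

end

theorem four_aux : ∀ a b c d e f g h : ZMod 2, a + b + c + d + e + f + g + h = 0 →
    ((powersetCard 4 (univ : Finset (Fin 8))).filter
      (fun y => P ![a, b, c, d, e, f, g, h] y = 1)).card = 0 ∨
    25 ≤ ((powersetCard 4 (univ : Finset (Fin 8))).filter
      (fun y => P ![a, b, c, d, e, f, g, h] y = 1)).card := by
  decide +kernel

theorem O_four (w : Fin 8 → ZMod 2) (hw : ∑ z, w z = 0) :
    (O 4 w).card = 0 ∨ 25 ≤ (O 4 w).card := by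
  rw [O_card]
  have e : w = ![w 0, w 1, w 2, w 3, w 4, w 5, w 6, w 7] := by
    ext i; fin_cases i <;> rfl
  rw [Fin.sum_univ_eight] at hw
  rw [e]
  exact four_aux _ _ _ _ _ _ _ _ hw

end Pool.Agent.H.MP_b101b2_co
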