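import Pool.Agent.H.MP_b101b2_co.A
import Pool.Agent.H.MP_b101b2_co.B

namespace Pool.Agent.H.MP_b101b2_co

open Finset

section
variable {W : Type} [Fintype W] [DecidableEq W]

open Classical in
noncomputable def nn (H : SimpleGraph W) (x y : W) : ZMod 2 := if H.Adj x y then 0 else 1

open Classical in
noncomputable def E (H : SimpleGraph W) (x1 x2 x3 x4 : W) : Finset W :=
  univ.filter (fun y => nn H x1 y + nn H x2 y + nn H x3 y + nn H x4 y = 1)

theorem E_iso (G H : SimpleGraph W) (φ : G ≃g H) (x1 x2 x3 x4 : W) :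
    (E G x1 x2 x3 x4).card = (E H (φ x1) (φ x2) (φ x3) (φ x4)).card := by
  apply Finset.card_equiv φ.toEquiv
  intro y
  have : ∀ x, nn H (φ x) (φ y) = nn G x y := by
    intro x
    unfold nn
    rw [φ.map_adj_iff]
  simp only [E, Finset.mem_filter, Finset.mem_univ, true_and]
  change _ ↔ nn H (φ x1) (φ y) + nn H (φ x2) (φ y) + nn H (φ x3) (φ y) + nn H (φ x4) (φ y) = 1
  simp only [this]

theorem card8 (a b c d e f g h : W) : ({a, b, c, d, e, f, g, h} : Finset W).card ≤ 8 := by
  have := List.toFinset_card_le [a, b, c, d, e, f, g, h]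
  simpa using this

end

section
variable {α : Type} [DecidableEq α] [Fintype α] {k : ℕ}

theorem nn_eq (h : Fintype.card α = 2 * k) (H : SimpleGraph (V α k))
    (hH : ∀ x y, H.Adj x y ↔ (P (chi x.1) y.1 = 0 ∧ y ≠ x ∧ y ≠ tau h x)) (x y : V α k)
    (h1 : y ≠ x) (h2 : y ≠ tau h x) : nn H x y = P (chi x.1) y.1 := by
  unfold nn
  rw [hH]
  rcases zm (P (chi x.1) y.1) with e | e
  · simp [e, h1, h2]
  · simp [e]

theorem sum_chi (x : V α k) : ∑ z, chi x.1 z = (k : ZMod 2) := by
  unfold chi
  rw [Finset.sum_boole, Finset.filter_mem_eq_inter, Finset.univ_inter, x.2]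

theorem E_H (h : Fintype.card α = 2 * k) (H : SimpleGraph (V α k))
    (hH : ∀ x y, H.Adj x y ↔ (P (chi x.1) y.1 = 0 ∧ y ≠ x ∧ y ≠ tau h x))
    (hO : ∀ w : α → ZMod 2, ∑ z, w z = 0 → (O k w).card = 0 ∨ 25 ≤ (O k w).card)
    (x1 x2 x3 x4 : V α k) :
    (E H x1 x2 x3 x4).card ≤ 8 ∨ 17 ≤ (E H x1 x2 x3 x4).card := by
  set w : α → ZMod 2 := fun z => chi x1.1 z + chi x2.1 z + chi x3.1 z + chi x4.1 z with hw
  set bad : Finset (V α k) := {x1, x2, x3, x4, tau h x1, tau h x2, tau h x3, tau h x4} with hbad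
  have hb : bad.card ≤ 8 := card8 _ _ _ _ _ _ _ _
  have key : ∀ y, y ∉ bad → (y ∈ E H x1 x2 x3 x4 ↔ y ∈ O k w) := by
    intro y hy
    simp only [hbad, Finset.mem_insert, Finset.mem_singleton, not_or] at hy
    obtain ⟨a1, a2, a3, a4, b1, b2, b3, b4⟩ := hy
    simp only [E, O, Finset.mem_filter, Finset.mem_univ, true_and]
    rw [nn_eq h H hH _ _ a1 b1, nn_eq h H hH _ _ a2 b2, nn_eq h H hH _ _ a3 b3,
      nn_eq h H hH _ _ a4 b4, hw, P_four]
  have s1 : E H x1 x2 x3 x4 ⊆ O k w ∪ bad := by
    intro y hy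
    by_cases hb : y ∈ bad
    · exact Finset.mem_union_right _ hb
    · exact Finset.mem_union_left _ ((key y hb).mp hy)
  have s2 : O k w ⊆ E H x1 x2 x3 x4 ∪ bad := by
    intro y hy
    by_cases hb : y ∈ bad
    · exact Finset.mem_union_right _ hb
    · exact Finset.mem_union_left _ ((key y hb).mpr hy)
  have c1 := (Finset.card_le_card s1).trans (Finset.card_union_le _ _)
  have c2 := (Finset.card_le_card s2).trans (Finset.card_union_le _ _)
  have hs : ∑ z, w z = 0 := by
    simp only [hw, Finset.sum_add_distrib, sum_chi]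
    generalize (k : ZMod 2) = p
    revert p
    decide
  rcases hO w hs with e | e <;> omega

def act (a b : α) (x : V α k) : V α k :=
  ⟨x.1.map (Equiv.swap a b).toEmbedding, by rw [Finset.card_map, x.2]⟩

omit [Fintype α] in
theorem mem_act (a b : α) (x : V α k) (z : α) :
    z ∈ (act a b x).1 ↔ Equiv.swap a b z ∈ x.1 := by
  simp [act, Finset.mem_map_equiv]

omit [Fintype α] in
theorem act_act (a b : α) (x : V α k) : act a b (act a b x) = x := by
  apply Subtype.ext
  ext z
  simp [mem_act]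

omit [Fintype α] in
theorem act_inter (a b : α) (x y : V α k) :
    ((act a b x).1 ∩ y.1).card = (x.1 ∩ (act a b y).1).card := by
  conv_lhs => rw [← act_act a b y]
  change ((x.1.map _) ∩ ((act a b y).1.map _)).card = _
  rw [← Finset.map_inter, Finset.card_map]

omit [Fintype α] in
theorem P_act (a b : α) (x : V α k) (hx : a ∈ x.1 ↔ b ∉ x.1) (y : Finset α) :
    P (chi (act a b x).1) y = P (chi x.1) y + (chi y a + chi y b) := by
  have hab : a ≠ b := by
    rintro rfl
    tauto
  have : ∀ z, chi (act a b x).1 z =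
      chi x.1 z + ((if z = a then 1 else 0) + (if z = b then 1 else 0)) := by
    intro z
    unfold chi
    simp only [mem_act]
    by_cases za : z = a
    · subst za
      by_cases m : z ∈ x.1
      · simp [m, hx.mp m, hab]; decide
      · have : b ∈ x.1 := by tauto
        simp [m, this, hab]
    · by_cases zb : z = b
      · subst zb
        by_cases m : z ∈ x.1
        · have : a ∉ x.1 := by tauto
          simp [m, this, za]; decide
        · simp [m, hx.mpr m, za]
      · simp [Equiv.swap_apply_of_ne_of_ne za zb, za, zb]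
  unfold P
  simp only [this, Finset.sum_add_distrib, Finset.sum_ite_eq']
  rfl

end

theorem real_aux (p u w : ZMod 2) :
    (if Xor (p = 0) (¬ (u = 0 ∧ w = 0)) then (1 : ℝ) else 0) =
      ((if p + u = 0 then 1 else 0) + (if p + w = 0 then 1 else 0) +
        (if p + w + u = 0 then 1 else 0) - (if p = 0 then 1 else 0)) / 2 := by
  have h11 : (1 : ZMod 2) + 1 = 0 := by decide
  rcases zm p with rfl | rfl <;> rcases zm u with rfl | rfl <;> rcases zm w with rfl | rfl <;>
    simp [Xor, h11]

end Pool.Agent.H.MP_b101b2_co
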