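import Pool.Agent.H.MP_b101b2_co.C

namespace Pool.Agent.H.MP_b101b2_co

open Finset

section
variable {α : Type} [DecidableEq α] [Fintype α] {k : ℕ}

def InC (a b c d : α) (X : Finset α) (x : V α k) : Prop :=
  (a ∈ x.1 ↔ b ∉ x.1) ∧ (c ∈ x.1 ↔ d ∉ x.1) ∧
    ((∀ z, z ≠ a → z ≠ b → z ≠ c → z ≠ d → (z ∈ x.1 ↔ z ∈ X)) ∨
      (∀ z, z ≠ a → z ≠ b → z ≠ c → z ≠ d → (z ∈ x.1 ↔ z ∉ X)))

def F (a b c d : α) (y : V α k) : Prop :=
  ¬ (chi y.1 a + chi y.1 b = 0 ∧ chi y.1 c + chi y.1 d = 0)

def Sw (a b c d : α) (X : Finset α) (x y : V α k) : Prop :=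
  (InC a b c d X x ∧ ¬ InC a b c d X y ∧ F a b c d y) ∨
    (InC a b c d X y ∧ ¬ InC a b c d X x ∧ F a b c d x)

def G' (a b c d : α) (X : Finset α) (H : SimpleGraph (V α k)) : SimpleGraph (V α k) where
  Adj x y := Xor (H.Adj x y) (Sw a b c d X x y)
  symm := ⟨fun x y h => by
    rw [H.adj_comm]
    unfold Sw at *
    rwa [or_comm]⟩
  loopless := ⟨fun x h => by
    unfold Sw Xor at h
    have := H.irrefl (v := x)
    tauto⟩

structure Dist (a b c d : α) : Prop where
  ab : a ≠ b
  ac : a ≠ c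
  ad : a ≠ d
  bc : b ≠ c
  bd : b ≠ d
  cd : c ≠ d

omit [Fintype α] in
theorem C_s {a b c d : α} (D : Dist a b c d) (X : Finset α) (x : V α k)
    (hx : InC a b c d X x) : InC a b c d X (act a b x) := by
  obtain ⟨h1, h2, h3⟩ := hx
  refine ⟨?_, ?_, ?_⟩
  · simp only [mem_act, Equiv.swap_apply_left, Equiv.swap_apply_right]; tauto
  · simp only [mem_act, Equiv.swap_apply_of_ne_of_ne D.ac.symm D.bc.symm,
      Equiv.swap_apply_of_ne_of_ne D.ad.symm D.bd.symm]; exact h2
  · rcases h3 with h3 | h3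
    · left; intro z za zb zc zd
      rw [mem_act, Equiv.swap_apply_of_ne_of_ne za zb]; exact h3 z za zb zc zd
    · right; intro z za zb zc zd
      rw [mem_act, Equiv.swap_apply_of_ne_of_ne za zb]; exact h3 z za zb zc zd

omit [Fintype α] in
theorem C_t {a b c d : α} (D : Dist a b c d) (X : Finset α) (x : V α k)
    (hx : InC a b c d X x) : InC a b c d X (act c d x) := by
  obtain ⟨h1, h2, h3⟩ := hx
  refine ⟨?_, ?_, ?_⟩
  · simp only [mem_act, Equiv.swap_apply_of_ne_of_ne D.ac D.ad,
      Equiv.swap_apply_of_ne_of_ne D.bc D.bd]; exact h1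
  · simp only [mem_act, Equiv.swap_apply_left, Equiv.swap_apply_right]; tauto
  · rcases h3 with h3 | h3
    · left; intro z za zb zc zd
      rw [mem_act, Equiv.swap_apply_of_ne_of_ne zc zd]; exact h3 z za zb zc zd
    · right; intro z za zb zc zd
      rw [mem_act, Equiv.swap_apply_of_ne_of_ne zc zd]; exact h3 z za zb zc zd

theorem C_tau (h : Fintype.card α = 2 * k) {a b c d : α} (X : Finset α) (x : V α k) :
    InC a b c d X (tau h x) ↔ InC a b c d X x := by
  unfold InC
  simp only [mem_tau, not_iff_not, not_not]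
  refine and_congr (by tauto) (and_congr (by tauto) ?_)
  rw [or_comm]
  refine or_congr Iff.rfl ?_
  refine forall_congr' fun z => ?_
  tauto

omit [Fintype α] in
theorem act_comm {a b c d : α} (D : Dist a b c d) (x : V α k) :
    act c d (act a b x) = act a b (act c d x) := by
  apply Subtype.ext
  ext z
  simp only [mem_act]
  have : Equiv.swap a b (Equiv.swap c d z) = Equiv.swap c d (Equiv.swap a b z) := by
    have := D.ab; have := D.ac; have := D.ad; have := D.bc; have := D.bd; have := D.cd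
    simp only [Equiv.swap_apply_def]
    split_ifs <;> simp_all
  rw [this]

open Classical in
theorem cosp (h : Fintype.card α = 2 * k) (H : SimpleGraph (V α k))
    (hH0 : ∀ x y, H.Adj x y ↔
      (x ≠ y ∧ 2 ≤ (x.1 ∩ y.1).card ∧ (x.1 ∩ y.1).card ≤ k - 1 ∧ Even (x.1 ∩ y.1).card))
    {a b c d : α} (D : Dist a b c d) (X : Finset α) :
    ((G' a b c d X H).adjMatrix ℝ).charpoly = (H.adjMatrix ℝ).charpoly := by
  have hH : ∀ x y, H.Adj x y ↔ (P (chi x.1) y.1 = 0 ∧ y ≠ x ∧ y ≠ tau h x) :=
    fun x y => (hH0 x y).trans (adj_iff h x y)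
  have aut : ∀ p q : α, ∀ x y, H.adjMatrix ℝ (act p q x) y = H.adjMatrix ℝ x (act p q y) := by
    intro p q x y
    simp only [SimpleGraph.adjMatrix_apply]
    congr 1
    apply propext
    rw [hH0, hH0, act_inter]
    refine and_congr ?_ Iff.rfl
    apply not_congr
    constructor
    · rintro rfl; rw [act_act]
    · rintro rfl; rw [act_act]
  apply gm (InC a b c d X) (act a b) (act c d) (act_act a b) (act_act c d) (act_comm D)
    (C_s D X) (C_t D X)
  · intro x y; simp only [SimpleGraph.adjMatrix_apply, H.adj_comm]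
  · intro x y; simp only [SimpleGraph.adjMatrix_apply, (G' a b c d X H).adj_comm]
  · exact aut a b
  · exact aut c d
  · intro x y hx hy
    simp only [SimpleGraph.adjMatrix_apply]
    congr 1
    apply propext
    simp [G', Sw, hx, hy, Xor]
  · intro x y hx hy
    simp only [SimpleGraph.adjMatrix_apply]
    congr 1
    apply propext
    simp [G', Sw, hx, hy, Xor]
  · intro x y hx hy
    have ad : ∀ x' : V α k, InC a b c d X x' → (H.Adj x' y ↔ P (chi x'.1) y.1 = 0) := by
      intro x' hx'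
      rw [hH]
      have n1 : y ≠ x' := fun e => hy (e ▸ hx')
      have n2 : y ≠ tau h x' := fun e => hy (e ▸ (C_tau h X x').mpr hx')
      simp [n1, n2]
    have g : (G' a b c d X H).Adj x y ↔ Xor (P (chi x.1) y.1 = 0)
        (¬ (chi y.1 a + chi y.1 b = 0 ∧ chi y.1 c + chi y.1 d = 0)) := by
      rw [← ad x hx]
      simp only [G', Sw, hx, hy, F, not_false_eq_true, true_and, false_and, or_false]
    simp only [SimpleGraph.adjMatrix_apply]
    simp only [g, ad x hx, ad _ (C_s D X x hx), ad _ (C_t D X x hx),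
      ad _ (C_s D X _ (C_t D X x hx)), P_act a b x hx.1, P_act c d x hx.2.1,
      P_act a b _ (C_t D X x hx).1]
    convert real_aux (P (chi x.1) y.1) (chi y.1 a + chi y.1 b) (chi y.1 c + chi y.1 d)

end

end Pool.Agent.H.MP_b101b2_co
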