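import Pool.Agent.H.MP_b101b2_co.D

namespace Pool.Agent.H.MP_b101b2_co

open Finset

section
variable {α : Type} [DecidableEq α] [Fintype α] {k : ℕ}

open Classical in
noncomputable def Cset (k : ℕ) (a b c d : α) (X : Finset α) : Finset (V α k) :=
  univ.filter (InC a b c d X)

theorem mem_Cset {a b c d : α} {X : Finset α} {x : V α k} :
    x ∈ Cset k a b c d X ↔ InC a b c d X x := by
  simp [Cset]

theorem Cset_le {a b c d e : α} (ea : e ≠ a) (eb : e ≠ b) (ec : e ≠ c) (ed : e ≠ d)
    (X : Finset α) : (Cset k a b c d X).card ≤ 8 := by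
  have : (univ : Finset (Bool × Bool × Bool)).card = 8 := by simp
  rw [← this]
  apply Finset.card_le_card_of_injOn
    (fun x => (decide (a ∈ x.1), decide (c ∈ x.1), decide (e ∈ x.1)))
  · intro x _; simp
  · intro x hx y hy hxy
    rw [Finset.mem_coe, mem_Cset] at hx hy
    simp only [Prod.mk.injEq, decide_eq_decide] at hxy
    obtain ⟨h1, h2, h3⟩ := hxy
    obtain ⟨x1, x2, x3⟩ := hx
    obtain ⟨y1, y2, y3⟩ := hy
    apply Subtype.ext
    ext z
    by_cases za : z = a
    · rw [za]; exact h1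
    by_cases zb : z = b
    · rw [zb]; exact not_iff_not.mp (x1.symm.trans (h1.trans y1))
    by_cases zc : z = c
    · rw [zc]; exact h2
    by_cases zd : z = d
    · rw [zd]; exact not_iff_not.mp (x2.symm.trans (h2.trans y2))
    rcases x3 with x3 | x3 <;> rcases y3 with y3 | y3
    · exact (x3 z za zb zc zd).trans (y3 z za zb zc zd).symm
    · exact absurd ((x3 e ea eb ec ed).symm.trans (h3.trans (y3 e ea eb ec ed))) iff_not_self
    · exact absurd ((y3 e ea eb ec ed).symm.trans (h3.symm.trans (x3 e ea eb ec ed)))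
        iff_not_self
    · exact (x3 z za zb zc zd).trans (y3 z za zb zc zd).symm

theorem Cset_ge (h : Fintype.card α = 2 * k) {a b c d e : α} (D : Dist a b c d)
    (ea : e ≠ a) (eb : e ≠ b) (ec : e ≠ c) (ed : e ≠ d)
    (X : Finset α) (x0 : V α k) (hx0 : InC a b c d X x0) : 8 ≤ (Cset k a b c d X).card := by
  have : (univ : Finset (Bool × Bool × Bool)).card = 8 := by simp
  rw [← this]
  apply Finset.card_le_card_of_surjOn
    (fun x => (decide (a ∈ x.1), decide (c ∈ x.1), decide (e ∈ x.1)))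
  rintro ⟨i, j, l⟩ -
  have s1 : ∃ x : V α k, InC a b c d X x ∧ decide (e ∈ x.1) = l := by
    by_cases q : decide (e ∈ x0.1) = l
    · exact ⟨x0, hx0, q⟩
    · refine ⟨tau h x0, (C_tau h X x0).mpr hx0, ?_⟩
      simp only [mem_tau]
      cases l <;> simp_all
  obtain ⟨x1, hx1, e1⟩ := s1
  have s2 : ∃ x : V α k, InC a b c d X x ∧ decide (c ∈ x.1) = j ∧ decide (e ∈ x.1) = l := by
    by_cases q : decide (c ∈ x1.1) = j
    · exact ⟨x1, hx1, q, e1⟩
    · refine ⟨act c d x1, C_t D X x1 hx1, ?_, ?_⟩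
      · simp only [mem_act, Equiv.swap_apply_left]
        have := hx1.2.1
        cases j <;> simp_all
      · simp only [mem_act, Equiv.swap_apply_of_ne_of_ne ec ed]; exact e1
  obtain ⟨x2, hx2, c2, e2⟩ := s2
  have s3 : ∃ x : V α k, InC a b c d X x ∧ decide (a ∈ x.1) = i ∧ decide (c ∈ x.1) = j ∧
      decide (e ∈ x.1) = l := by
    by_cases q : decide (a ∈ x2.1) = i
    · exact ⟨x2, hx2, q, c2, e2⟩
    · refine ⟨act a b x2, C_s D X x2 hx2, ?_, ?_, ?_⟩
      · simp only [mem_act, Equiv.swap_apply_left]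
        have := hx2.1
        cases i <;> simp_all
      · simp only [mem_act, Equiv.swap_apply_of_ne_of_ne D.ac.symm D.bc.symm]; exact c2
      · simp only [mem_act, Equiv.swap_apply_of_ne_of_ne ea eb]; exact e2
  obtain ⟨x3, hx3, a3, c3, e3⟩ := s3
  exact ⟨x3, by rw [Finset.mem_coe, mem_Cset]; exact hx3, by simp only [a3, c3, e3]⟩

open Classical in
omit [Fintype α] in
theorem nn_G {a b c d : α} (X : Finset α) (H : SimpleGraph (V α k)) (x y : V α k)
    (hx : ¬ InC a b c d X x) :
    nn (G' a b c d X H) x y = nn H x y +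
      (if InC a b c d X y then 1 else 0) * (if F a b c d x then 1 else 0) := by
  unfold nn
  by_cases h1 : H.Adj x y <;> by_cases h2 : InC a b c d X y <;> by_cases h3 : F a b c d x <;>
    simp [G', Sw, Xor, hx, h1, h2, h3]
  decide

open Classical in
theorem E_G (h : Fintype.card α = 2 * k) (H : SimpleGraph (V α k))
    (hH : ∀ x y, H.Adj x y ↔ (P (chi x.1) y.1 = 0 ∧ y ≠ x ∧ y ≠ tau h x))
    {a b c d : α} (X : Finset α) (h8 : (Cset k a b c d X).card = 8)
    (x1 x2 x3 x4 : V α k) (n1 : ¬ InC a b c d X x1) (n2 : ¬ InC a b c d X x2)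
    (n3 : ¬ InC a b c d X x3) (n4 : ¬ InC a b c d X x4)
    (f1 : ¬ F a b c d x1) (f2 : F a b c d x2) (f3 : F a b c d x3) (f4 : F a b c d x4)
    (hs : ∀ z, chi x1.1 z + chi x2.1 z + chi x3.1 z + chi x4.1 z = 0)
    (d2 : x1 ≠ x2) (d3 : x1 ≠ x3) (d4 : x1 ≠ x4)
    (y0 : α) (m1 : y0 ∈ x1.1) (m2 : y0 ∈ x2.1) (m3 : y0 ∈ x3.1) (m4 : y0 ∈ x4.1) :
    9 ≤ (E (G' a b c d X H) x1 x2 x3 x4).card ∧
      (E (G' a b c d X H) x1 x2 x3 x4).card ≤ 16 := by
  set bad : Finset (V α k) := {x1, x2, x3, x4, tau h x1, tau h x2, tau h x3, tau h x4} with hbad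
  have hb : bad.card ≤ 8 := card8 _ _ _ _ _ _ _ _
  have hP : ∀ y, P (chi x1.1) y + P (chi x2.1) y + P (chi x3.1) y + P (chi x4.1) y = 0 := by
    intro y
    rw [← P_four]
    simp [P, hs]
  have mem : ∀ y, y ∈ E (G' a b c d X H) x1 x2 x3 x4 ↔
      nn H x1 y + nn H x2 y + nn H x3 y + nn H x4 y + (if InC a b c d X y then 1 else 0) = 1 := by
    intro y
    simp only [E, Finset.mem_filter, Finset.mem_univ, true_and]
    rw [nn_G X H _ _ n1, nn_G X H _ _ n2, nn_G X H _ _ n3, nn_G X H _ _ n4]
    simp only [f1, f2, f3, f4, if_true, if_false]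
    generalize (if InC a b c d X y then (1 : ZMod 2) else 0) = q
    generalize nn H x1 y = p1
    generalize nn H x2 y = p2
    generalize nn H x3 y = p3
    generalize nn H x4 y = p4
    revert q p1 p2 p3 p4
    decide
  have key : ∀ y, y ∉ bad → (y ∈ E (G' a b c d X H) x1 x2 x3 x4 ↔ y ∈ Cset k a b c d X) := by
    intro y hy
    simp only [hbad, Finset.mem_insert, Finset.mem_singleton, not_or] at hy
    obtain ⟨a1, a2, a3, a4, b1, b2, b3, b4⟩ := hy
    rw [mem, nn_eq h H hH _ _ a1 b1, nn_eq h H hH _ _ a2 b2, nn_eq h H hH _ _ a3 b3,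
      nn_eq h H hH _ _ a4 b4, hP, mem_Cset]
    by_cases q : InC a b c d X y <;> simp [q]
  constructor
  · have t1 : tau h x1 ∉ Cset k a b c d X := by rw [mem_Cset, C_tau]; exact n1
    have : insert (tau h x1) (Cset k a b c d X) ⊆ E (G' a b c d X H) x1 x2 x3 x4 := by
      intro y hy
      rcases Finset.mem_insert.mp hy with rfl | hy
      · have inj : ∀ x : V α k, x1 ≠ x → tau h x1 ≠ tau h x := by
          intro x hx e
          apply hx
          apply Subtype.ext
          ext z
          have := mem_tau h x1 z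
          rw [e, mem_tau] at this
          exact (not_iff_not.mp this).symm
        have dif : ∀ x : V α k, y0 ∈ x.1 → tau h x1 ≠ x := by
          intro x hx e
          rw [← e, mem_tau] at hx
          exact hx m1
        rw [mem, nn_eq h H hH _ _ (dif _ m2) (inj _ d2), nn_eq h H hH _ _ (dif _ m3) (inj _ d3),
          nn_eq h H hH _ _ (dif _ m4) (inj _ d4), if_neg (by rw [C_tau]; exact n1)]
        have q1 : nn H x1 (tau h x1) = 1 := by
          unfold nn
          rw [if_neg]
          rw [hH]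
          simp
        have q2 : P (chi x1.1) (tau h x1).1 = 0 := by
          rw [P_chi]
          simp [tau]
        have q3 := hP (tau h x1).1
        rw [q2] at q3
        rw [q1]
        linear_combination q3
      · apply (key y _).mpr hy
        rw [mem_Cset] at hy
        simp only [hbad, Finset.mem_insert, Finset.mem_singleton, not_or]
        exact ⟨fun e => n1 (e ▸ hy), fun e => n2 (e ▸ hy), fun e => n3 (e ▸ hy),
          fun e => n4 (e ▸ hy), fun e => n1 ((C_tau h X _).mp (e ▸ hy)),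
          fun e => n2 ((C_tau h X _).mp (e ▸ hy)), fun e => n3 ((C_tau h X _).mp (e ▸ hy)),
          fun e => n4 ((C_tau h X _).mp (e ▸ hy))⟩
    have := Finset.card_le_card this
    rw [Finset.card_insert_of_notMem t1] at this
    omega
  · have s1 : E (G' a b c d X H) x1 x2 x3 x4 ⊆ Cset k a b c d X ∪ bad := by
      intro y hy
      by_cases hb : y ∈ bad
      · exact Finset.mem_union_right _ hb
      · exact Finset.mem_union_left _ ((key y hb).mp hy)
    have c1 := (Finset.card_le_card s1).trans (Finset.card_union_le _ _)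
    omega

end

end Pool.Agent.H.MP_b101b2_co
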