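import Pool.Agent.H.MP_b101b2_co.E

namespace Pool.Agent.H.MP_b101b2_co

open Finset

section
variable {α : Type} [DecidableEq α] [Fintype α] {k : ℕ}

def mk2 (hk : 4 ≤ k) (p q : α) (Y : Finset α) (hY : Y.card = k - 2) (hpq : p ≠ q) (hp : p ∉ Y)
    (hq : q ∉ Y) : V α k :=
  ⟨insert p (insert q Y), by
    rw [Finset.card_insert_of_notMem (by simp [hpq, hp]), Finset.card_insert_of_notMem hq, hY]
    omega⟩

open Classical in
theorem main (h : Fintype.card α = 2 * k) (hk : 4 ≤ k) (H : SimpleGraph (V α k))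
    (hH0 : ∀ x y, H.Adj x y ↔
      (x ≠ y ∧ 2 ≤ (x.1 ∩ y.1).card ∧ (x.1 ∩ y.1).card ≤ k - 1 ∧ Even (x.1 ∩ y.1).card))
    (hO : ∀ w : α → ZMod 2, ∑ z, w z = 0 → (O k w).card = 0 ∨ 25 ≤ (O k w).card) :
    ∃ G : SimpleGraph (V α k),
      (G.adjMatrix ℝ).charpoly = (H.adjMatrix ℝ).charpoly ∧ IsEmpty (G ≃g H) := by
  have hH : ∀ x y, H.Adj x y ↔ (P (chi x.1) y.1 = 0 ∧ y ≠ x ∧ y ≠ tau h x) :=
    fun x y => (hH0 x y).trans (adj_iff h x y)
  obtain ⟨ι⟩ : Nonempty (Fin 6 ↪ α) :=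
    Function.Embedding.nonempty_of_card_le (by rw [h, Fintype.card_fin]; omega)
  have ne : ∀ i j : Fin 6, i ≠ j → ι i ≠ ι j := fun i j hij e => hij (ι.injective e)
  have hR : (univ \ univ.map ι).card = 2 * k - 6 := by
    rw [Finset.card_sdiff_of_subset (Finset.subset_univ _), Finset.card_map, Finset.card_univ, h]
    simp
  obtain ⟨X0, hX0, cX0⟩ := Finset.exists_subset_card_eq (s := univ \ univ.map ι) (n := k - 3)
    (by omega)
  obtain ⟨Y, hY, cY⟩ := Finset.exists_subset_card_eq (s := univ \ univ.map ι) (n := k - 2)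
    (by omega)
  have nX : ∀ i, ι i ∉ X0 := fun i m => by simpa using hX0 m
  have nY : ∀ i, ι i ∉ Y := fun i m => by simpa using hY m
  obtain ⟨y0, hy0⟩ : Y.Nonempty := Finset.card_pos.mp (by omega)
  have D : Dist (ι 0) (ι 1) (ι 2) (ι 3) :=
    ⟨ne _ _ (by decide), ne _ _ (by decide), ne _ _ (by decide), ne _ _ (by decide),
      ne _ _ (by decide), ne _ _ (by decide)⟩
  have cX : (insert (ι 4) X0).card = k - 2 := by
    rw [Finset.card_insert_of_notMem (nX 4), cX0]; omega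
  refine ⟨G' (ι 0) (ι 1) (ι 2) (ι 3) (insert (ι 4) X0) H, cosp h H hH0 D _, ⟨fun φ => ?_⟩⟩
  have h8 : (Cset k (ι 0) (ι 1) (ι 2) (ι 3) (insert (ι 4) X0)).card = 8 := by
    apply le_antisymm
    · exact Cset_le (e := ι 4) (ne _ _ (by decide)) (ne _ _ (by decide)) (ne _ _ (by decide))
        (ne _ _ (by decide)) _
    · refine Cset_ge h D (e := ι 4) (ne _ _ (by decide)) (ne _ _ (by decide))
        (ne _ _ (by decide)) (ne _ _ (by decide)) _
        (mk2 hk (ι 0) (ι 2) (insert (ι 4) X0) cX (ne _ _ (by decide)) (by simp [nX])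
          (by simp [nX])) ?_
      refine ⟨by simp [mk2, nX], by simp [mk2, nX], Or.inl ?_⟩
      intro z za _ zc _
      simp [mk2, za, zc]
  have h11 : (1 : ZMod 2) + 1 = 0 := by decide
  have q := E_G h H hH (insert (ι 4) X0) h8
    (mk2 hk (ι 4) (ι 5) Y cY (ne _ _ (by decide)) (nY _) (nY _))
    (mk2 hk (ι 0) (ι 5) Y cY (ne _ _ (by decide)) (nY _) (nY _))
    (mk2 hk (ι 4) (ι 2) Y cY (ne _ _ (by decide)) (nY _) (nY _))
    (mk2 hk (ι 0) (ι 2) Y cY (ne _ _ (by decide)) (nY _) (nY _))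
    (fun c => by simpa [mk2, nY] using c.1)
    (fun c => by simpa [mk2, nY] using c.2.1)
    (fun c => by simpa [mk2, nY] using c.1)
    (fun c => by
      rcases c.2.2 with c | c
      · simpa [mk2, nY] using c (ι 4) (ne _ _ (by decide)) (ne _ _ (by decide))
          (ne _ _ (by decide)) (ne _ _ (by decide))
      · simpa [mk2, nY, nX] using c (ι 5) (ne _ _ (by decide)) (ne _ _ (by decide))
          (ne _ _ (by decide)) (ne _ _ (by decide)))
    (by simp [F, chi, mk2, nY]) (by simp [F, chi, mk2, nY]) (by simp [F, chi, mk2, nY])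
    (by simp [F, chi, mk2, nY])
    (by
      intro z
      by_cases z0 : z = ι 0
      · simp [chi, mk2, z0, nY, h11]
      by_cases z2 : z = ι 2
      · simp [chi, mk2, z2, nY, h11]
      by_cases z4 : z = ι 4
      · simp [chi, mk2, z4, nY, h11]
      by_cases z5 : z = ι 5
      · simp [chi, mk2, z5, nY, h11]
      by_cases zy : z ∈ Y
      · simp [chi, mk2, zy, h11]
      · simp [chi, mk2, zy, z0, z2, z4, z5])
    (fun e => by simpa [mk2, nY] using congrArg (fun x : V α k => ι 0 ∈ x.1) e)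
    (fun e => by simpa [mk2, nY] using congrArg (fun x : V α k => ι 2 ∈ x.1) e)
    (fun e => by simpa [mk2, nY] using congrArg (fun x : V α k => ι 0 ∈ x.1) e)
    y0 (by simp [mk2, hy0]) (by simp [mk2, hy0]) (by simp [mk2, hy0]) (by simp [mk2, hy0])
  rw [E_iso _ _ φ] at q
  rcases E_H h H hH hO _ _ _ _ with e | e
  · exact absurd (q.1.trans e) (by norm_num)
  · exact absurd (e.trans q.2) (by norm_num)

end

end Pool.Agent.H.MP_b101b2_co
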